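import Pool.Agent.FS.ResFinGA.Res

/-! A locally nilpotent left ideal of the group algebra. -/

set_option autoImplicit false

namespace Pool.Agent.FS.ResFinGA

open Pool.Agent.Lib.MP_d24f8b_al

variable {K : Type*} [Field K] {p : ℕ}

lemma prod_zero_of_span {S ι : Type*} [Ring S] [Algebra K S] (t : ι → S) (U : Set ι)
    (zs : List S) (hz : ∀ z ∈ zs, z ∈ Submodule.span K (t '' U)) :
    ∀ r : S, (∀ l : List ι, l.length = zs.length → (∀ g ∈ l, g ∈ U) → r * (l.map t).prod = 0) →
      r * zs.prod = 0 := by
  induction zs with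
  | nil => intro r h; simpa using h [] rfl (by simp)
  | cons z zs ih =>
    intro r h
    have key : ∀ y ∈ Submodule.span K (t '' U), r * y * zs.prod = 0 := by
      intro y hy
      induction hy using Submodule.span_induction with
      | mem x hx =>
        obtain ⟨g, hg, rfl⟩ := hx
        refine ih (fun a ha => hz a (List.mem_cons_of_mem _ ha)) _ (fun l hl hU => ?_)
        have := h (g :: l) (by simp [hl]) (by
          intro x hx
          rcases List.mem_cons.1 hx with rfl | hx
          · exact hg
          · exact hU x hx)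
        simpa [mul_assoc] using this
      | zero => simp
      | add x y _ _ hx hy => rw [mul_add, add_mul, hx, hy, add_zero]
      | smul c x _ hx => rw [mul_smul_comm, smul_mul_assoc, hx, smul_zero]
    rw [List.prod_cons, ← mul_assoc]
    exact key z (hz z List.mem_cons_self)

/-- the augmentation of a lamp -/
noncomputable def E (K : Type*) [Field K] (p x : ℕ) : MonoidAlgebra K (H p) :=
  MonoidAlgebra.of K (H p) (X p x) - 1

lemma of_mul_E (g : H p) (x : ℕ) :
    MonoidAlgebra.of K (H p) g * E K p x = E K p (ev (W g) x) * MonoidAlgebra.of K (H p) g := by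
  simp only [E, mul_sub, sub_mul, mul_one, one_mul, ← map_mul, conj_X]

lemma E_comm (x y : ℕ) : Commute (E K p x) (E K p y) :=
  ((Commute.map (X_comm x y) (MonoidAlgebra.of K (H p))).sub_right (.one_right _)).sub_left
    (.one_left _)

lemma E_pow [Fact p.Prime] [CharP K p] (x : ℕ) : E K p x ^ p = 0 := by
  have : CharP (MonoidAlgebra K (H p)) p := charP_of_injective_algebraMap (algebraMap K _).injective p
  rw [E, sub_pow_char_of_commute _ (.one_right _), ← map_pow, X_pow, map_one, one_pow, sub_self]

lemma E_ne [Fact (1 < p)] (x : ℕ) : E K p x ≠ 0 := fun h =>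
  X_ne x (MonoidAlgebra.of_injective ((sub_eq_zero.1 h).trans (map_one _).symm))

lemma prod_E (q : ℕ) (l : List ℕ) : ∃ r, (l.map (E K p)).prod = E K p q ^ l.count q * r := by
  induction l with
  | nil => exact ⟨1, by simp⟩
  | cons x l ih =>
    obtain ⟨r, hr⟩ := ih
    rw [List.map_cons, List.prod_cons, hr]
    by_cases h : x = q
    · exact ⟨r, by rw [h, List.count_cons_self, pow_succ', mul_assoc]⟩
    · exact ⟨E K p x * r, by
        rw [List.count_cons_of_ne h, ← mul_assoc, ((E_comm x q).pow_right _).eq, mul_assoc]⟩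

lemma of_mul_prod_E (g : H p) (l : List ℕ) :
    MonoidAlgebra.of K (H p) g * (l.map (E K p)).prod =
      ((l.map (ev (W g))).map (E K p)).prod * MonoidAlgebra.of K (H p) g := by
  induction l with
  | nil => simp
  | cons q r ih =>
    simp only [List.map_cons, List.prod_cons]
    rw [← mul_assoc, of_mul_E, mul_assoc, ih, mul_assoc]

/-- the inverted orbit of a list of group elements -/
noncomputable def pts : List (H p) → List ℕ
  | [] => []
  | g :: r => ev (W g) 0 :: (pts r).map (ev (W g))

lemma pts_length (l : List (H p)) : (pts l).length = l.length := by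
  induction l with
  | nil => rfl
  | cons g r ih => simp [pts, ih]

noncomputable def word : List (H p) → List V
  | [] => [V.e]
  | g :: r => W g ++ word r

lemma word_ne (l : List (H p)) : word l ≠ [] := by
  induction l with
  | nil => simp [word]
  | cons g r ih => simp [word, ih]

lemma pts_mem (l : List (H p)) : ∀ x ∈ pts l, x ∈ O (word l) := by
  induction l with
  | nil => simp [pts]
  | cons g r ih =>
    intro x hx
    simp only [pts, List.mem_cons, List.mem_map] at hx
    rcases hx with rfl | ⟨q, hq, rfl⟩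
    · exact ev_mem_O _ _ _ (zero_mem_O _ (word_ne r))
    · exact ev_mem_O _ _ _ (ih q hq)

lemma nrm_word (L : ℕ) (l : List (H p)) (h : ∀ g ∈ l, nrm (W g) ≤ L) :
    nrm (word l) ≤ l.length * L + 3 := by
  induction l with
  | nil => simp [word, nrm, V.wt]
  | cons g r ih =>
    have h1 := h g (by simp)
    have h2 := ih (fun x hx => h x (by simp [hx]))
    simp only [word, nrm_append, List.length_cons, add_mul]
    omega

lemma prod_t (l : List (H p)) :
    (l.map (fun g => MonoidAlgebra.of K (H p) g * E K p 0)).prod =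
      ((pts l).map (E K p)).prod * MonoidAlgebra.of K (H p) l.prod := by
  induction l with
  | nil => simp [pts, MonoidAlgebra.one_def]
  | cons g r ih =>
    simp only [List.map_cons, List.prod_cons, pts, ih, map_mul]
    rw [of_mul_E, mul_assoc, ← mul_assoc (MonoidAlgebra.of K (H p) g), of_mul_prod_E]
    simp only [mul_assoc]

variable [hp : Fact p.Prime] [CharP K p]

lemma prod_t_eq_zero (L : ℕ) : ∃ n : ℕ, ∀ l : List (H p), l.length = n →
    (∀ g ∈ l, nrm (W g) ≤ L) →
    (l.map (fun g => MonoidAlgebra.of K (H p) g * E K p 0)).prod = 0 := by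
  obtain ⟨n, hn⟩ := card_O_sublinear (p * L)
  refine ⟨n * p, fun l hl h => ?_⟩
  have h1 := hn (word l) (by rw [← mul_assoc, ← hl]; exact nrm_word L l h)
  obtain ⟨q, hq⟩ : ∃ q, p ≤ (pts l).count q := by
    by_contra hc
    push Not at hc
    have h2 : (pts l).toFinset ⊆ O (word l) := fun x hx => pts_mem l x (List.mem_toFinset.1 hx)
    have h3 := Finset.sum_le_card_nsmul (pts l).toFinset (fun a => (pts l).count a) p
      fun a _ => (hc a).le
    rw [List.sum_toFinset_count_eq_length, pts_length, hl, smul_eq_mul] at h3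
    have h4 := Nat.le_of_mul_le_mul_right h3 hp.out.pos
    have h5 := Finset.card_le_card h2
    omega
  obtain ⟨r, hr⟩ := prod_E (K := K) (p := p) q (pts l)
  rw [prod_t, hr, pow_eq_zero_of_le hq (E_pow q), zero_mul, zero_mul]

omit hp [CharP K p] in
lemma mem_span (y : MonoidAlgebra K (H p)) : ∃ L : ℕ, ∀ L', L ≤ L' →
    y * E K p 0 ∈ Submodule.span K
      ((fun g => MonoidAlgebra.of K (H p) g * E K p 0) '' {g | nrm (W g) ≤ L'}) := by
  induction y using MonoidAlgebra.induction_on with
  | of g => exact ⟨nrm (W g), fun L' h => Submodule.subset_span ⟨g, h, rfl⟩⟩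
  | add a b ha hb =>
    obtain ⟨L1, h1⟩ := ha
    obtain ⟨L2, h2⟩ := hb
    refine ⟨max L1 L2, fun L' h => ?_⟩
    rw [add_mul]
    exact add_mem (h1 _ ((le_max_left _ _).trans h)) (h2 _ ((le_max_right _ _).trans h))
  | smul r a ha =>
    obtain ⟨L, h⟩ := ha
    exact ⟨L, fun L' h' => by rw [smul_mul_assoc]; exact Submodule.smul_mem _ _ (h _ h')⟩

theorem loc_nil (s : Set (MonoidAlgebra K (H p))) (hs : s.Finite)
    (h : s ⊆ Ideal.span {E K p 0}) :
    ∃ n : ℕ, ∀ l : List (MonoidAlgebra K (H p)), l.length = n → (∀ x ∈ l, x ∈ s) → l.prod = 0 := by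
  have h1 : ∀ x : s, ∃ L : ℕ, ∀ L', L ≤ L' → x.1 ∈ Submodule.span K
      ((fun g => MonoidAlgebra.of K (H p) g * E K p 0) '' {g | nrm (W g) ≤ L'}) := fun x => by
    obtain ⟨y, hy⟩ := Ideal.mem_span_singleton'.1 (h x.2)
    rw [← hy]
    exact mem_span y
  choose f hf using h1
  have := hs.to_subtype
  obtain ⟨L, hL⟩ := (Set.finite_range f).bddAbove
  obtain ⟨n, hn⟩ := prod_t_eq_zero (K := K) (p := p) L
  refine ⟨n, fun l hl hx => ?_⟩
  have h2 := prod_zero_of_span _ _ l (fun z hz => hf ⟨z, hx z hz⟩ L (hL ⟨_, rfl⟩)) 1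
    fun l' hl' hU => by rw [one_mul]; exact hn l' (hl'.trans hl) hU
  rwa [one_mul] at h2

theorem nilpotent_mul (y : MonoidAlgebra K (H p)) : IsNilpotent (y * E K p 0) := by
  obtain ⟨n, hn⟩ := loc_nil {y * E K p 0} (Set.finite_singleton _)
    (Set.singleton_subset_iff.2 (Ideal.mem_span_singleton'.2 ⟨y, rfl⟩))
  refine ⟨n, ?_⟩
  rw [← List.prod_replicate]
  exact hn _ List.length_replicate fun x hx => List.eq_of_mem_replicate hx

end Pool.Agent.FS.ResFinGA
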