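import Pool.Agent.FS.ResFinGA.Res

/-! The group has subexponential growth. -/

set_option autoImplicit false

namespace Pool.Agent.FS.ResFinGA

open Pool.Agent.Lib.MP_d24f8b_al
open scoped Pointwise

variable {p : ℕ}

/-- a letter of the Klein group together with a lamp at the base point -/
def la (x : V × ZMod p) (s : ℕ × ZMod p) : ℕ × ZMod p :=
  (act x.1 s.1, if s.1 = 0 then s.2 + x.2 else s.2)

def aa (s : ℕ × ZMod p) : ℕ × ZMod p := (A s.1, s.2)

def j0 (s : ℕ × ZMod p) : ℕ × ZMod p := (i0 s.1, s.2)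

def j1 (s : ℕ × ZMod p) : ℕ × ZMod p := (i1 s.1, s.2)

def evp (w : List (V × ZMod p)) (s : ℕ × ZMod p) : ℕ × ZMod p :=
  w.foldr (fun x t => la x (aa t)) s

def nrp (w : List (V × ZMod p)) : ℕ := w.foldr (fun x t => x.1.wt + 3 + t) 0

lemma evp_cons (x : V × ZMod p) (r : List (V × ZMod p)) (s : ℕ × ZMod p) :
    evp (x :: r) s = la x (aa (evp r s)) := rfl

lemma nrp_cons (x : V × ZMod p) (r : List (V × ZMod p)) : nrp (x :: r) = x.1.wt + 3 + nrp r := rfl

lemma la_mul (x y : V × ZMod p) (s : ℕ × ZMod p) :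
    la (x.1.mul y.1, y.2 + x.2) s = la x (la y s) := by
  have h : act y.1 s.1 = 0 ↔ s.1 = 0 :=
    ⟨fun h => by rw [← act_act y.1 s.1, h, act_zero], fun h => by rw [h, act_zero]⟩
  simp only [la, act_mul, h]
  split_ifs
  · rw [add_assoc]
  · rfl

lemma la_e (s : ℕ × ZMod p) : la (V.e, 0) s = s := by simp [la, act_e]

lemma aa_j0 (s : ℕ × ZMod p) : aa (j0 s) = j1 s := by simp only [aa, j0, j1, A_i0]

lemma aa_j1 (s : ℕ × ZMod p) : aa (j1 s) = j0 s := by simp only [aa, j0, j1, A_i1]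

lemma la_j1 (x : V × ZMod p) (s : ℕ × ZMod p) : la x (j1 s) = j1 (la (x.1.sig, x.2) s) := by
  have h0 : i1 s.1 = 2 * s.1 + s.1 % 2 := by unfold i1; split_ifs <;> omega
  have h : i1 s.1 = 0 ↔ s.1 = 0 := by omega
  simp only [la, j1, act_i1, h]

lemma la_j0 (x : V × ZMod p) (s : ℕ × ZMod p) :
    la x (j0 s) = j0 (if x.1.pi = true then aa s else s) := by
  have h0 : i0 s.1 + s.1 % 2 = 2 * s.1 + 1 := by unfold i0; split_ifs <;> omega
  have h : ¬ i0 s.1 = 0 := by omega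
  simp only [la, j0, act_i0, h, if_false]
  split_ifs <;> rfl

/-- maps given by a word of norm at most `N` -/
def Bl (p N : ℕ) : Set (ℕ × ZMod p → ℕ × ZMod p) :=
  {F | ∃ (w : List (V × ZMod p)) (y : V × ZMod p), nrp w + y.1.wt ≤ N ∧
    F = fun s => evp w (la y s)}

variable {F G : ℕ × ZMod p → ℕ × ZMod p} {N M : ℕ}

lemma bl_mono (h : F ∈ Bl p N) (hM : N ≤ M) : F ∈ Bl p M := by
  obtain ⟨w, y, h1, h2⟩ := h
  exact ⟨w, y, h1.trans hM, h2⟩

lemma bl_id : (fun s => s) ∈ Bl p 0 := ⟨[], (V.e, 0), le_rfl, funext fun s => (la_e s).symm⟩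

lemma bl_la (h : F ∈ Bl p N) (v : V × ZMod p) : (fun s => la v (F s)) ∈ Bl p (N + v.1.wt) := by
  obtain ⟨w, y, h1, rfl⟩ := h
  cases w with
  | nil =>
    refine ⟨[], (v.1.mul y.1, y.2 + v.2), ?_, funext fun s => (la_mul v y s).symm⟩
    have := V.wt_mul v.1 y.1
    dsimp only
    omega
  | cons x r =>
    refine ⟨(v.1.mul x.1, x.2 + v.2) :: r, y, ?_, funext fun s => (la_mul v x _).symm⟩
    have := V.wt_mul v.1 x.1
    rw [nrp_cons] at h1 ⊢
    dsimp only
    omega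

lemma bl_aa (h : F ∈ Bl p N) : (fun s => aa (F s)) ∈ Bl p (N + 3) := by
  obtain ⟨w, y, h1, rfl⟩ := h
  refine ⟨(V.e, 0) :: w, y, ?_, funext fun s => (la_e _).symm⟩
  have : V.e.wt = 0 := rfl
  rw [nrp_cons]
  dsimp only
  omega

lemma bl_comp (h : F ∈ Bl p N) (h' : G ∈ Bl p M) : (fun s => F (G s)) ∈ Bl p (N + M) := by
  obtain ⟨w, y, h1, rfl⟩ := h
  have key : ∀ w : List (V × ZMod p),
      (fun s => evp w (la y (G s))) ∈ Bl p (nrp w + y.1.wt + M) := fun w => by
    induction w with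
    | nil => exact bl_mono (bl_la h' y) (by omega)
    | cons x r ih => exact bl_mono (bl_la (bl_aa ih) x) (by rw [nrp_cons]; omega)
  exact bl_mono (key w) (by omega)

lemma bl_if (h : F ∈ Bl p N) (v : V) :
    (fun s => if v.pi = true then aa (F s) else F s) ∈ Bl p (N + if v.pi = true then 3 else 0) := by
  split_ifs
  · exact bl_aa h
  · exact h

lemma bl_sec (y : V × ZMod p) (w : List (V × ZMod p)) :
    ∃ (F G : ℕ × ZMod p → ℕ × ZMod p) (N M : ℕ), F ∈ Bl p N ∧ G ∈ Bl p M ∧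
      6 * (N + M) ≤ 5 * (nrp w + y.1.wt) + 15 ∧
      ((∀ s, evp w (la y (j0 s)) = j0 (F s) ∧ evp w (la y (j1 s)) = j1 (G s)) ∨
        ∀ s, evp w (la y (j0 s)) = j1 (F s) ∧ evp w (la y (j1 s)) = j0 (G s)) := by
  induction w with
  | nil =>
    have hw : ∀ x : V, 6 * (0 + (if x.pi = true then 3 else 0) + (0 + x.sig.wt)) ≤
        5 * (0 + x.wt) + 15 := fun x => by cases x <;> decide
    exact ⟨_, _, _, _, bl_if bl_id y.1, bl_la bl_id (y.1.sig, y.2), hw y.1,
      .inl fun s => ⟨la_j0 y s, la_j1 y s⟩⟩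
  | cons x r ih =>
    obtain ⟨F, G, N, M, hF, hG, hle, h⟩ := ih
    have hw : ∀ x : V, 6 * (x.sig.wt + (if x.pi = true then 3 else 0)) ≤ 5 * (x.wt + 3) :=
      fun x => by cases x <;> decide
    have hx := hw x.1
    rcases h with h | h
    · refine ⟨_, _, _, _, bl_la hF (x.1.sig, x.2), bl_if hG x.1,
        by rw [nrp_cons]; dsimp only; omega, .inr fun s => ⟨?_, ?_⟩⟩
      · rw [evp_cons, (h s).1, aa_j0, la_j1]
      · rw [evp_cons, (h s).2, aa_j1, la_j0]
    · refine ⟨_, _, _, _, bl_if hF x.1, bl_la hG (x.1.sig, x.2),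
        by rw [nrp_cons]; dsimp only; omega, .inl fun s => ⟨?_, ?_⟩⟩
      · rw [evp_cons, (h s).1, aa_j1, la_j0]
      · rw [evp_cons, (h s).2, aa_j0, la_j1]

/-- the map with prescribed sections -/
def glue (e : Bool) (F G : ℕ × ZMod p → ℕ × ZMod p) (s : ℕ × ZMod p) : ℕ × ZMod p :=
  if s.1 % 2 = s.1 / 2 % 2 then (if e = true then j0 else j1) (G (s.1 / 2, s.2))
  else (if e = true then j1 else j0) (F (s.1 / 2, s.2))

lemma eq_glue {T : ℕ × ZMod p → ℕ × ZMod p} (e : Bool)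
    (h : ∀ s, T (j0 s) = (if e = true then j1 else j0) (F s) ∧
      T (j1 s) = (if e = true then j0 else j1) (G s)) : T = glue e F G := by
  funext ⟨n, z⟩
  obtain ⟨m, rfl | rfl⟩ := i_cases n
  · have h1 : i0 m / 2 = m := by unfold i0; split_ifs <;> omega
    have h2 : ¬ i0 m % 2 = m % 2 := by unfold i0; split_ifs <;> omega
    simp only [glue, h1, if_neg h2]
    exact (h (m, z)).1
  · have h1 : i1 m / 2 = m := by unfold i1; split_ifs <;> omega
    have h2 : i1 m % 2 = m % 2 := by unfold i1; split_ifs <;> omega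
    simp only [glue, h1, if_pos h2]
    exact (h (m, z)).2

lemma bl_sub (N : ℕ) : Bl p N ⊆ ⋃ a ∈ Finset.range ((5 * N + 15) / 6 + 1),
    (Set.image2 (glue false) (Bl p a) (Bl p ((5 * N + 15) / 6 - a)) ∪
      Set.image2 (glue true) (Bl p a) (Bl p ((5 * N + 15) / 6 - a))) := by
  rintro T ⟨w, y, h1, rfl⟩
  obtain ⟨F, G, a, b, hF, hG, hle, h⟩ := bl_sec y w
  refine Set.mem_iUnion₂.2 ⟨a, Finset.mem_range.2 (by omega), ?_⟩
  have hG' : G ∈ Bl p ((5 * N + 15) / 6 - a) := bl_mono hG (by omega)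
  rcases h with h | h
  · exact .inl ⟨F, hF, G, hG', (eq_glue false h).symm⟩
  · exact .inr ⟨F, hF, G, hG', (eq_glue true h).symm⟩

lemma ncard_im2 {α β γ : Type*} (f : α → β → γ) {s : Set α} {t : Set β} (hs : s.Finite)
    (ht : t.Finite) : (Set.image2 f s t).ncard ≤ s.ncard * t.ncard := by
  rw [← Set.image_uncurry_prod, ← Set.ncard_prod]
  exact Set.ncard_image_le (hs.prod ht)

lemma V_fin : Finite V :=
  Set.finite_univ_iff.1 ((Set.toFinite {V.e, V.b, V.c, V.d}).subset fun x _ => by cases x <;> simp)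

lemma bl_exp [NeZero p] : ∃ q : ℕ, ∀ N, (Bl p N).Finite ∧ (Bl p N).ncard + 1 ≤ (q + 1) ^ (N + 1) := by
  have := V_fin
  have hu : (Set.univ : Set (V × ZMod p)).Finite := Set.finite_univ
  refine ⟨(Set.univ : Set (V × ZMod p)).ncard, fun N => ?_⟩
  have h0 := Set.ncard_image_le (f := fun (y : V × ZMod p) s => la y s) hu
  induction N with
  | zero =>
    have hs : Bl p 0 ⊆ (fun (y : V × ZMod p) s => la y s) '' Set.univ := by
      rintro T ⟨w, y, h1, rfl⟩
      cases w with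
      | nil => exact ⟨y, trivial, rfl⟩
      | cons x r => rw [nrp_cons] at h1; omega
    have := Set.ncard_le_ncard hs (hu.image _)
    exact ⟨(hu.image _).subset hs, by rw [zero_add, pow_one]; omega⟩
  | succ N ih =>
    have hs : Bl p (N + 1) ⊆ (fun (y : V × ZMod p) s => la y s) '' Set.univ ∪
        Set.image2 (fun (x : V × ZMod p) (F : ℕ × ZMod p → ℕ × ZMod p) s => la x (aa (F s)))
          Set.univ (Bl p N) := by
      rintro T ⟨w, y, h1, rfl⟩
      cases w with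
      | nil => exact .inl ⟨y, trivial, rfl⟩
      | cons x r =>
        exact .inr ⟨x, trivial, _, ⟨r, y, by rw [nrp_cons] at h1; omega, rfl⟩, rfl⟩
    have hf := (hu.image fun (y : V × ZMod p) s => la y s).union (hu.image2
      (fun (x : V × ZMod p) (F : ℕ × ZMod p → ℕ × ZMod p) s => la x (aa (F s))) ih.1)
    refine ⟨hf.subset hs, ?_⟩
    have h1 := (Set.ncard_le_ncard hs hf).trans (Set.ncard_union_le _ _)
    have h2 := ncard_im2 (fun (x : V × ZMod p) (F : ℕ × ZMod p → ℕ × ZMod p) s =>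
      la x (aa (F s))) hu ih.1
    rw [pow_succ']
    nlinarith [ih.2]

lemma bl_step [NeZero p] {t : ℝ} (ht : 0 < t)
    (h : ∃ C : ℝ, ∀ n : ℕ, ((Bl p n).ncard : ℝ) ≤ C * Real.exp (t * n)) :
    ∃ C : ℝ, ∀ n : ℕ, ((Bl p n).ncard : ℝ) ≤ C * Real.exp (11 / 12 * t * n) := by
  obtain ⟨C, hC⟩ := h
  obtain ⟨q, hq⟩ := bl_exp (p := p)
  refine ⟨(4 + 12 / t) * (2 * C ^ 2 * Real.exp (3 * t)), fun N => ?_⟩
  have h1 := Set.ncard_le_ncard (bl_sub (p := p) N) ((Finset.finite_toSet _).biUnion fun a _ =>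
    ((hq _).1.image2 _ (hq _).1).union ((hq _).1.image2 _ (hq _).1))
  have hM6 : 6 * ((5 * N + 15) / 6) ≤ 5 * N + 15 := by omega
  have hMN : (5 * N + 15) / 6 + 1 ≤ N + 4 := by omega
  generalize (5 * N + 15) / 6 = M at h1 hM6 hMN
  have h2 : ∀ a ∈ Finset.range (M + 1),
      (((Set.image2 (glue false) (Bl p a) (Bl p (M - a)) ∪
        Set.image2 (glue true) (Bl p a) (Bl p (M - a))).ncard : ℕ) : ℝ) ≤
        2 * C ^ 2 * Real.exp (t * M) := fun a ha => by
    have ha' : a ≤ M := Nat.lt_succ_iff.1 (Finset.mem_range.1 ha)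
    have h3 := (Set.ncard_union_le _ _).trans (add_le_add
      (ncard_im2 (glue false) (hq a).1 (hq (M - a)).1)
      (ncard_im2 (glue true) (hq a).1 (hq (M - a)).1))
    have h4 := mul_le_mul (hC a) (hC (M - a)) (Nat.cast_nonneg _)
      ((Nat.cast_nonneg _).trans (hC a))
    have h5 : C * Real.exp (t * a) * (C * Real.exp (t * (M - a : ℕ))) =
        C ^ 2 * Real.exp (t * M) := by
      rw [Nat.cast_sub ha', show t * M = t * a + t * (M - a) by ring, Real.exp_add]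
      ring
    have h6 := (Nat.cast_le (α := ℝ)).2 h3
    push_cast at h6
    linarith
  have h7 := (Nat.cast_le (α := ℝ)).2 (h1.trans (Finset.set_ncard_biUnion_le _ _))
  rw [Nat.cast_sum] at h7
  have h8 := h7.trans (Finset.sum_le_card_nsmul _ _ _ h2)
  rw [Finset.card_range, nsmul_eq_mul] at h8
  have h9 : ((M + 1 : ℕ) : ℝ) ≤ (4 + 12 / t) * Real.exp (t * N / 12) := by
    have a1 : ((M + 1 : ℕ) : ℝ) ≤ N + 4 := by exact_mod_cast hMN
    have a2 := Real.add_one_le_exp (t * N / 12)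
    have a3 : (0 : ℝ) ≤ t * N / 12 := by positivity
    have a4 : (N : ℝ) = 12 / t * (t * N / 12) := by field_simp
    have a5 : 12 / t * (t * N / 12) ≤ 12 / t * Real.exp (t * N / 12) :=
      mul_le_mul_of_nonneg_left (by linarith) (by positivity)
    linarith
  have h10 : Real.exp (t * M) ≤ Real.exp (3 * t) * Real.exp (10 / 12 * t * N) := by
    rw [← Real.exp_add, Real.exp_le_exp]
    have a1 : (6 : ℝ) * M ≤ 5 * N + 15 := by exact_mod_cast hM6
    nlinarith
  refine h8.trans ((mul_le_mul h9 (mul_le_mul_of_nonneg_left h10 (by positivity)) (by positivity)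
    (by positivity)).trans (le_of_eq ?_))
  rw [show 11 / 12 * t * N = t * N / 12 + 10 / 12 * t * N by ring, Real.exp_add]
  ring

lemma bl_subexp [NeZero p] {t : ℝ} (ht : 0 < t) :
    ∃ C : ℝ, ∀ n : ℕ, ((Bl p n).ncard : ℝ) ≤ C * Real.exp (t * n) := by
  obtain ⟨q, hq⟩ := bl_exp (p := p)
  have hq0 : (0 : ℝ) < q + 1 := by positivity
  have key : ∀ k : ℕ, ∃ C : ℝ, ∀ n : ℕ,
      ((Bl p n).ncard : ℝ) ≤ C * Real.exp ((11 / 12) ^ k * (q + 1) * n) := fun k => by
    induction k with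
    | zero =>
      refine ⟨q + 1, fun n => ?_⟩
      have h1 := (Nat.cast_le (α := ℝ)).2 (hq n).2
      push_cast at h1
      have h2 : ((q : ℝ) + 1) ^ n ≤ Real.exp (q + 1) ^ n :=
        pow_le_pow_left₀ hq0.le (by linarith [Real.add_one_le_exp ((q : ℝ) + 1)]) n
      rw [pow_zero, one_mul, mul_comm _ (n : ℝ), Real.exp_nat_mul]
      rw [pow_succ'] at h1
      nlinarith
    | succ k ih =>
      have := bl_step (by positivity) ih
      simpa only [pow_succ', mul_assoc] using this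
  obtain ⟨k, hk⟩ := exists_pow_lt_of_lt_one (div_pos ht hq0) (show (11 / 12 : ℝ) < 1 by norm_num)
  obtain ⟨C, hC⟩ := key k
  rw [lt_div_iff₀ hq0] at hk
  refine ⟨|C|, fun n => (hC n).trans ?_⟩
  gcongr
  exact le_abs_self C

lemma mem_bl (g : H p) : ∃ N, ⇑g.1 ∈ Bl p N := by
  obtain ⟨g, hg⟩ := g
  have hA : ∃ N, ⇑(qA (p := p)) ∈ Bl p N := ⟨_, bl_aa bl_id⟩
  have hV : ∀ v, ∃ N, ⇑(qV (p := p) v) ∈ Bl p N := fun v =>
    ⟨_, [], (v, 0), le_rfl, funext fun s => by simp [qV, evp, la]⟩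
  have hL : ∀ c : ZMod p, ∃ N, ⇑(lam 0 (tr c)) ∈ Bl p N := fun c =>
    ⟨_, [], (V.e, c), le_rfl, funext fun ⟨y, z⟩ => by
      rw [lam_apply]
      simp [evp, la, act_e, tr_apply]⟩
  induction hg using Subgroup.closure_induction'' with
  | mem x hx =>
    simp only [gens, Set.mem_insert_iff, Set.mem_singleton_iff] at hx
    rcases hx with rfl | rfl | rfl | rfl | rfl
    exacts [hA, hV _, hV _, hV _, hL _]
  | inv_mem x hx =>
    simp only [gens, Set.mem_insert_iff, Set.mem_singleton_iff] at hx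
    rcases hx with rfl | rfl | rfl | rfl | rfl
    · exact hA
    · exact hV _
    · exact hV _
    · exact hV _
    · show ∃ N, ⇑(lam 0 (tr (1 : ZMod p)))⁻¹ ∈ Bl p N
      rw [← map_inv, show (tr (1 : ZMod p))⁻¹ = tr (-1) by simp [tr]]
      exact hL _
  | one => exact ⟨0, bl_id⟩
  | mul x y _ _ hx hy =>
    obtain ⟨a, ha⟩ := hx
    obtain ⟨b, hb⟩ := hy
    exact ⟨_, bl_comp (F := ⇑x) (G := ⇑y) ha hb⟩

theorem growth [NeZero p] (S : Set (H p)) (hS : S.Finite) (c : ℝ) (hc : 1 < c) :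
    ∃ C : ℝ, ∀ n : ℕ, ((S ^ n).ncard : ℝ) ≤ C * c ^ n := by
  choose f hf using mem_bl (p := p)
  obtain ⟨L, hL⟩ := (hS.image f).bddAbove
  obtain ⟨q, hq⟩ := bl_exp (p := p)
  have hlog := Real.log_pos hc
  obtain ⟨C, hC⟩ := bl_subexp (p := p) (t := Real.log c / (L + 1)) (by positivity)
  have key : ∀ n, ∀ g ∈ S ^ n, ⇑g.1 ∈ Bl p (n * (L + 1)) := fun n => by
    induction n with
    | zero =>
      intro g hg
      rw [pow_zero, Set.mem_one] at hg
      rw [hg, zero_mul]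
      exact bl_id
    | succ n ih =>
      intro g hg
      rw [pow_succ] at hg
      obtain ⟨a, ha, b, hb, rfl⟩ := hg
      have := hL ⟨b, hb, rfl⟩
      exact bl_mono (bl_comp (F := ⇑a.1) (G := ⇑b.1) (ih a ha) (hf b))
        (by rw [Nat.succ_mul]; omega)
  refine ⟨C, fun n => ?_⟩
  have h1 := Set.ncard_le_ncard_of_injOn (fun g : H p => ⇑g.1) (key n)
    (fun a _ b _ h => Subtype.ext (DFunLike.coe_injective h)) (hq _).1
  refine ((Nat.cast_le.2 h1).trans (hC _)).trans (le_of_eq ?_)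
  congr 1
  push_cast
  rw [show Real.log c / (L + 1) * (n * (L + 1)) = n * Real.log c by field_simp, Real.exp_nat_mul,
    Real.exp_log (by linarith)]

end Pool.Agent.FS.ResFinGA
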