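import Pool.Agent.Lib.MP_d24f8b_al.ACRing

/-! The permutational wreath product of a cyclic group with the Grigorchuk group. -/

set_option autoImplicit false

namespace Pool.Agent.FS.ResFinGA

open Equiv Pool.Agent.Lib.MP_d24f8b_al

variable {p : ℕ}

def tr (c : ZMod p) : Perm (ZMod p) := Equiv.addRight c

lemma tr_apply (c z : ZMod p) : tr c z = z + c := rfl

/-- the lamp at the point `x` -/
def lam (x : ℕ) : Perm (ZMod p) →* Perm (ℕ × ZMod p) :=
  MonoidHom.mk' (fun σ => Equiv.prodCongrRight fun y => if y = x then σ else 1) fun σ σ' => by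
    ext1 z
    obtain ⟨y, z⟩ := z
    by_cases h : y = x <;> simp [h]

lemma lam_apply (x : ℕ) (σ : Perm (ZMod p)) (y : ℕ) (z : ZMod p) :
    lam x σ (y, z) = (y, if y = x then σ z else z) := by
  by_cases h : y = x <;> simp [lam, h]

def qA : Perm (ℕ × ZMod p) where
  toFun x := (A x.1, x.2)
  invFun x := (A x.1, x.2)
  left_inv x := by simp [A_A]
  right_inv x := by simp [A_A]

def qV (v : V) : Perm (ℕ × ZMod p) where
  toFun x := (act v x.1, x.2)
  invFun x := (act v x.1, x.2)
  left_inv x := by simp [act_act]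
  right_inv x := by simp [act_act]

def gens (p : ℕ) : Set (Perm (ℕ × ZMod p)) :=
  {qA, qV V.b, qV V.c, qV V.d, lam 0 (tr 1)}

/-- the group -/
def H (p : ℕ) : Subgroup (Perm (ℕ × ZMod p)) := Subgroup.closure (gens p)

lemma H_fg : Group.FG (H p) := by
  have : Finite (gens p) := by unfold gens; infer_instance
  exact Group.closure_finite_fg (gens p)

/-- the properties shared by all elements of the group -/
structure Good (g : Perm (ℕ × ZMod p)) : Prop where
  word : ∃ l : List V, ∀ x, (g x).1 = ev l x.1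
  comm : ∀ c y z, g (y, tr c z) = ((g (y, z)).1, tr c (g (y, z)).2)
  fin : {y | ∃ z, (g (y, z)).2 ≠ z}.Finite

lemma Good.mul {g h : Perm (ℕ × ZMod p)} (hg : Good g) (hh : Good h) : Good (g * h) := by
  obtain ⟨l, hl⟩ := hg.word
  obtain ⟨l', hl'⟩ := hh.word
  refine ⟨⟨l ++ l', fun z => by rw [Perm.mul_apply, hl, hl', ev_append]⟩, fun c y z => ?_, ?_⟩
  · rw [Perm.mul_apply, hh.comm, hg.comm]
    rfl
  · refine (hh.fin.union (hg.fin.preimage (AC.ev_inj l').injOn)).subset ?_
    rintro y ⟨z, hz⟩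
    by_cases h1 : (h (y, z)).2 = z
    · refine .inr ⟨z, ?_⟩
      have : h (y, z) = (ev l' y, z) := Prod.ext (hl' _) h1
      rwa [Perm.mul_apply, this] at hz
    · exact .inl ⟨z, h1⟩

lemma good_lam {σ : Perm (ZMod p)} (h : ∀ c, Commute σ (tr c)) : Good (lam 0 σ) := by
  refine ⟨⟨[], fun x => by obtain ⟨y, z⟩ := x; rw [lam_apply]; rfl⟩, fun c y z => ?_, ?_⟩
  · simp only [lam_apply]
    split_ifs
    · exact congrArg _ (congrArg (fun f : Perm (ZMod p) => f z) (h c).eq)
    · rfl
  · refine (Set.finite_singleton 0).subset ?_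
    rintro y ⟨z, hz⟩
    by_contra h0
    exact hz (by rw [lam_apply, if_neg (show ¬ y = 0 from h0)])

lemma good (g : H p) : Good g.1 := by
  obtain ⟨g, hg⟩ := g
  have hA : Good (qA (p := p)) := ⟨⟨[V.e], fun x => by simp [ev, act_e, qA]⟩, fun _ _ _ => rfl, by simp [qA]⟩
  have hV : ∀ v, Good (qV (p := p) v) := fun v =>
    ⟨⟨[v, V.e], fun x => by simp [ev, act_e, A_A, qV]⟩, fun _ _ _ => rfl, by simp [qV]⟩
  have c1 : ∀ c : ZMod p, Commute (tr 1) (tr c) := fun c => by
    ext1 z
    simp [tr_apply, add_right_comm]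
  induction hg using Subgroup.closure_induction'' with
  | mem x hx =>
    simp only [gens, Set.mem_insert_iff, Set.mem_singleton_iff] at hx
    rcases hx with rfl | rfl | rfl | rfl | rfl
    exacts [hA, hV _, hV _, hV _, good_lam c1]
  | inv_mem x hx =>
    simp only [gens, Set.mem_insert_iff, Set.mem_singleton_iff] at hx
    rcases hx with rfl | rfl | rfl | rfl | rfl
    · exact hA
    · exact hV _
    · exact hV _
    · exact hV _
    · show Good _⁻¹
      rw [← map_inv]
      exact good_lam fun c => (c1 c).inv_left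
  | one => exact ⟨⟨[], fun _ => rfl⟩, fun _ _ _ => rfl, by simp⟩
  | mul x y _ _ hx hy => exact hx.mul hy

/-- a word representing the action of `g` on the base set -/
noncomputable def W (g : H p) : List V := (good g).word.choose

lemma W_spec (g : H p) (x : ℕ × ZMod p) : (g.1 x).1 = ev (W g) x.1 := (good g).word.choose_spec x

lemma ev_mul (g h : H p) (y : ℕ) : ev (W (g * h)) y = ev (W g) (ev (W h) y) := by
  rw [← W_spec (g * h) (y, 0), ← W_spec h (y, 0), ← W_spec g]
  rfl

lemma conj_lam (g : H p) (x : ℕ) (c : ZMod p) :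
    g.1 * lam x (tr c) = lam (ev (W g) x) (tr c) * g.1 := by
  ext1 w
  obtain ⟨y, z⟩ := w
  have e : g.1 (y, z) = (ev (W g) y, (g.1 (y, z)).2) := Prod.ext (W_spec g _) rfl
  rw [Perm.mul_apply, Perm.mul_apply, lam_apply, e, lam_apply]
  by_cases h : y = x
  · rw [if_pos h, if_pos (by rw [h]), (good g).comm, W_spec]
  · rw [if_neg h, if_neg fun h' => h (AC.ev_inj _ h')]
    exact e

lemma trans (y : ℕ) : ∃ g : H p, ev (W g) 0 = y := by
  induction y with
  | zero => exact ⟨1, (W_spec 1 (0, 0)).symm⟩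
  | succ n ih =>
    obtain ⟨g, hg⟩ := ih
    rcases Nat.mod_two_eq_zero_or_one n with h | h
    · refine ⟨⟨qA, Subgroup.subset_closure (by simp [gens])⟩ * g, ?_⟩
      rw [ev_mul, hg, ← W_spec _ (n, 0)]
      simp [qA, A, h]
    · obtain ⟨v, hv⟩ := sw_exists ((n + 1) / 2) (by omega)
      have hm : qV v ∈ H p := by
        cases v
        · have : qV (p := p) V.e = 1 := by ext1 x; simp [qV, act_e]
          rw [this]
          exact one_mem _
        all_goals exact Subgroup.subset_closure (by simp [gens])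
      refine ⟨⟨qV v, hm⟩ * g, ?_⟩
      rw [ev_mul, hg, ← W_spec _ (n, 0)]
      simp [qV, act, h, hv]

lemma lam_mem (x : ℕ) : lam x (tr 1) ∈ H p := by
  have h0 : lam 0 (tr 1) ∈ H p := Subgroup.subset_closure (by simp [gens])
  obtain ⟨g, rfl⟩ := trans (p := p) x
  rw [← mul_inv_eq_iff_eq_mul.2 (conj_lam g 0 _)]
  exact mul_mem (mul_mem g.2 h0) (inv_mem g.2)

/-- the lamp generator at the point `x` -/
noncomputable def X (p x : ℕ) : H p := ⟨lam x (tr 1), lam_mem x⟩

lemma conj_X (g : H p) (x : ℕ) : g * X p x = X p (ev (W g) x) * g :=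
  Subtype.ext (conj_lam g x _)

lemma X_comm (x y : ℕ) : X p x * X p y = X p y * X p x := by
  rw [conj_X, ← W_spec (X p x) (y, 0)]
  simp only [X, lam_apply]

lemma X_pow (x : ℕ) : X p x ^ p = 1 := by
  apply Subtype.ext
  have h1 : ∀ k : ℕ, tr (1 : ZMod p) ^ k = tr (k : ZMod p) := fun k => by simp [tr]
  show lam x (tr 1) ^ p = 1
  rw [← map_pow, h1, ZMod.natCast_self, show tr (0 : ZMod p) = 1 from by ext1 z; simp [tr_apply],
    map_one]

lemma X_ne [Fact (1 < p)] (x : ℕ) : X p x ≠ 1 := fun h => by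
  have h1 := congrArg (fun g : H p => (g.1 (x, 0)).2) h
  simp [X, lam_apply, tr_apply] at h1

lemma swap_of_conj [Fact (1 < p)] {h : H p} {q r : ℕ} (hq : ev (W h) q ≠ q) (hne : q ≠ r)
    (e : X p q * h * (X p q)⁻¹ = X p r * h * (X p r)⁻¹) : q = ev (W h) r := by
  have key : ∀ q, X p q * h * (X p q)⁻¹ = X p q * (X p (ev (W h) q))⁻¹ * h := fun q => by
    rw [mul_assoc, mul_assoc, mul_right_inj, mul_inv_eq_iff_eq_mul, mul_assoc, conj_X,
      inv_mul_cancel_left]
  rw [key, key, mul_left_inj, mul_inv_eq_iff_eq_mul, mul_assoc, ← (Commute.inv_right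
    (show Commute (X p _) (X p _) from X_comm _ _)).eq, ← mul_assoc, eq_mul_inv_iff_mul_eq] at e
  have h1 := congrArg (fun g : H p => (g.1 (q, 0)).2) e
  have hq' : ¬ q = ev (W h) q := fun h2 => hq h2.symm
  by_contra h3
  simp [X, Perm.mul_apply, lam_apply, hne, hq', h3, tr_apply] at h1

/-- every non-trivial conjugacy class is infinite -/
lemma icc [Fact (1 < p)] {h : H p} (hf : {x | IsConj h x}.Finite) : h = 1 := by
  let T : H p → Set ℕ := fun g => {y | ∃ z, g.1 (y, z) ≠ (y, z)}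
  have hT : ∀ g : H p, T (g * h * g⁻¹) = ev (W g) '' T h := fun g => by
    ext y
    constructor
    · rintro ⟨z, hz⟩
      refine ⟨(g.1⁻¹ (y, z)).1, ⟨(g.1⁻¹ (y, z)).2, fun e => hz ?_⟩, ?_⟩
      · show g.1 (h.1 (g.1⁻¹ (y, z))) = _
        rw [show h.1 (g.1⁻¹ (y, z)) = g.1⁻¹ (y, z) from e]
        simp
      · rw [← W_spec]
        simp
    · rintro ⟨y, ⟨z, hz⟩, rfl⟩
      refine ⟨(g.1 (y, z)).2, fun e => hz (g.1.injective ?_)⟩
      rw [← W_spec g (y, z)] at e
      simpa using e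
  by_cases hfin : (T h).Finite
  · by_contra hne
    obtain ⟨y, hy⟩ : (T h).Nonempty := by
      by_contra h0
      refine hne (Subtype.ext (Equiv.ext fun w => ?_))
      by_contra h1
      exact h0 ⟨w.1, w.2, h1⟩
    refine Set.infinite_univ (α := ℕ) ((hf.biUnion (t := T) fun x hx => ?_).subset fun n _ => ?_)
    · obtain ⟨g, rfl⟩ := isConj_iff.1 hx
      rw [hT]
      exact hfin.image _
    · obtain ⟨g1, rfl⟩ := trans (p := p) y
      obtain ⟨g2, rfl⟩ := trans (p := p) n
      refine Set.mem_biUnion (isConj_iff.2 ⟨g2 * g1⁻¹, rfl⟩) ?_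
      rw [hT]
      exact ⟨_, hy, by rw [← ev_mul, inv_mul_cancel_right]⟩
  · exfalso
    have hinf : {y | ev (W h) y ≠ y}.Infinite := fun h1 => hfin <|
      (h1.union (good h).fin).subset (by
        rintro y ⟨z, hz⟩
        by_cases h2 : ev (W h) y = y
        · exact .inr ⟨z, fun h3 => hz (Prod.ext ((W_spec h _).trans h2) h3)⟩
        · exact .inl h2)
    have key : ∀ S : Set ℕ, S.Infinite → (∀ y ∈ S, ev (W h) y ≠ y) →
        ∃ q ∈ S, ∃ r ∈ S, q = ev (W h) r ∧ r = ev (W h) q := fun S hS h1 => by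
      obtain ⟨q, hq, r, hr, hne, e⟩ := hS.exists_ne_map_eq_of_mapsTo
        (f := fun q => X p q * h * (X p q)⁻¹) (fun q _ => isConj_iff.2 ⟨_, rfl⟩) hf
      exact ⟨q, hq, r, hr, swap_of_conj (h1 q hq) hne e, swap_of_conj (h1 r hr) hne.symm e.symm⟩
    have h2 : ({y | y < ev (W h) y} ∪ {y | ev (W h) y < y}).Infinite :=
      hinf.mono fun y hy => (lt_or_gt_of_ne (show ev (W h) y ≠ y from hy)).symm
    rcases Set.infinite_union.1 h2 with h3 | h3
    · obtain ⟨q, hq, r, hr, e1, e2⟩ := key _ h3 fun y hy => (ne_of_lt hy).symm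
      simp only [Set.mem_ofPred_eq] at hq hr
      omega
    · obtain ⟨q, hq, r, hr, e1, e2⟩ := key _ h3 fun y hy => ne_of_lt hy
      simp only [Set.mem_ofPred_eq] at hq hr
      omega

end Pool.Agent.FS.ResFinGA
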