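import Pool.Agent.FS.ResFinGA.Grp

/-! The group is residually finite. -/

set_option autoImplicit false

namespace Pool.Agent.FS.ResFinGA

open Equiv Pool.Agent.Lib.MP_d24f8b_al

variable {p : ℕ}

/-- the first `k` letters of the point `n` -/
def pre (k n : ℕ) : List Bool :=
  Nat.rec (motive := fun _ => ℕ → List Bool) (fun _ => [])
    (fun _ f m => decide (m % 2 = m / 2 % 2) :: f (m / 2)) k n

lemma pre_zero (n : ℕ) : pre 0 n = [] := rfl

lemma pre_succ (k n : ℕ) : pre (k + 1) n = decide (n % 2 = n / 2 % 2) :: pre k (n / 2) := rfl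

lemma pre_length (k : ℕ) : ∀ n, (pre k n).length = k := by
  induction k with
  | zero => intro n; rfl
  | succ k ih => intro n; rw [pre_succ, List.length_cons, ih]

lemma pre_i0 (k m : ℕ) : pre (k + 1) (i0 m) = false :: pre k m := by
  have h1 : i0 m / 2 = m := by unfold i0; split_ifs <;> omega
  have h2 : ¬ i0 m % 2 = m % 2 := by unfold i0; split_ifs <;> omega
  rw [pre_succ, h1, decide_eq_false h2]

lemma pre_i1 (k m : ℕ) : pre (k + 1) (i1 m) = true :: pre k m := by
  have h1 : i1 m / 2 = m := by unfold i1; split_ifs <;> omega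
  have h2 : i1 m % 2 = m % 2 := by unfold i1; split_ifs <;> omega
  rw [pre_succ, h1, decide_eq_true h2]

lemma i_cases (n : ℕ) : ∃ m, n = i0 m ∨ n = i1 m :=
  ⟨n / 2, by unfold i0 i1; split_ifs <;> omega⟩

lemma pre_inv (k : ℕ) : ∀ x y, pre k x = pre k y →
    pre k (A x) = pre k (A y) ∧ ∀ v, pre k (act v x) = pre k (act v y) := by
  induction k with
  | zero => intro x y _; exact ⟨rfl, fun _ => rfl⟩
  | succ k ih =>
    intro x y h
    obtain ⟨a, rfl | rfl⟩ := i_cases x <;> obtain ⟨b, rfl | rfl⟩ := i_cases y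
    · rw [pre_i0, pre_i0, List.cons.injEq] at h
      refine ⟨by rw [A_i0, A_i0, pre_i1, pre_i1, h.2], fun v => ?_⟩
      rw [act_i0, act_i0, pre_i0, pre_i0]
      split_ifs
      · rw [(ih a b h.2).1]
      · rw [h.2]
    · rw [pre_i0, pre_i1, List.cons.injEq] at h
      exact absurd h.1 (by decide)
    · rw [pre_i0, pre_i1, List.cons.injEq] at h
      exact absurd h.1 (by decide)
    · rw [pre_i1, pre_i1, List.cons.injEq] at h
      refine ⟨by rw [A_i1, A_i1, pre_i0, pre_i0, h.2], fun v => ?_⟩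
      rw [act_i1, act_i1, pre_i1, pre_i1, (ih a b h.2).2]

lemma pre_ev (k : ℕ) (l : List V) {x y : ℕ} (h : pre k x = pre k y) :
    pre k (ev l x) = pre k (ev l y) := by
  induction l with
  | nil => exact h
  | cons v r ih => exact (pre_inv k _ _ (pre_inv k _ _ ih).1).2 v

lemma pre_sep (k : ℕ) : ∀ x y, x + y ≤ k → pre k x = pre k y → x = y := by
  induction k with
  | zero => intro x y h _; omega
  | succ k ih =>
    intro x y h e
    rw [pre_succ, pre_succ, List.cons.injEq, decide_eq_decide] at e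
    have h1 := ih (x / 2) (y / 2) (by omega) e.2
    have h2 := e.1
    omega

/-- the lamp configuration of `g` -/
def cf (g : H p) (y : ℕ) : ZMod p := (g.1 (y, 0)).2

lemma apply_eq (g : H p) (y : ℕ) (z : ZMod p) : g.1 (y, z) = (ev (W g) y, cf g y + z) := by
  have h := (good g).comm z y 0
  rw [tr_apply, zero_add, W_spec] at h
  exact h

lemma cf_fin (g : H p) : (Function.support (cf g)).Finite :=
  (good g).fin.subset fun _ hy => ⟨0, hy⟩

lemma cf_mul (g h : H p) (y : ℕ) : cf (g * h) y = cf g (ev (W h) y) + cf h y := by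
  show (g.1 (h.1 (y, 0))).2 = _
  rw [apply_eq h, apply_eq g, add_zero]

lemma ev_one (y : ℕ) : ev (W (1 : H p)) y = y := (W_spec 1 (y, 0)).symm

lemma ev_bij (g : H p) : Function.Bijective (ev (W g)) :=
  ⟨AC.ev_inj _, fun y => ⟨ev (W g⁻¹) y, by rw [← ev_mul, mul_inv_cancel, ev_one]⟩⟩

/-- the right action on pairs (test function, value) -/
noncomputable def ra (g : H p) (s : (ℕ → ZMod p) × ZMod p) : (ℕ → ZMod p) × ZMod p :=
  (fun x => s.1 (ev (W g) x), s.2 + ∑ᶠ x, s.1 (ev (W g) x) * cf g x)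

lemma ra_one (s : (ℕ → ZMod p) × ZMod p) : ra 1 s = s := by
  have h : ∀ x, cf (1 : H p) x = 0 := fun _ => rfl
  simp [ra, ev_one, h]

lemma ra_mul (g h : H p) (s : (ℕ → ZMod p) × ZMod p) : ra (g * h) s = ra h (ra g s) := by
  refine Prod.ext (funext fun x => by simp only [ra, ev_mul]) ?_
  simp only [ra, ev_mul, cf_mul, mul_add]
  rw [finsum_add_distrib, add_assoc,
    finsum_comp (g := fun y => s.1 (ev (W g) y) * cf g y) _ (ev_bij h)]
  · exact ((cf_fin g).preimage (AC.ev_inj (W h)).injOn).subset fun x hx =>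
      right_ne_zero_of_mul hx
  · exact (cf_fin h).subset fun x hx => right_ne_zero_of_mul hx

lemma meas_fin [NeZero p] (k : ℕ) :
    {φ : ℕ → ZMod p | ∀ x y, pre k x = pre k y → φ x = φ y}.Finite := by
  let e : ℕ → List.Vector Bool k := fun n => ⟨pre k n, pre_length k n⟩
  refine (Set.finite_range fun ψ : List.Vector Bool k → ZMod p => ψ ∘ e).subset fun φ hφ => ?_
  obtain ⟨ψ, hψ⟩ := (Function.factorsThrough_iff (f := e) φ).1
    fun x y h => hφ x y (congrArg Subtype.val h)
  exact ⟨ψ, hψ.symm⟩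

lemma exists_sub [NeZero p] {g : H p} {k : ℕ} {φ : ℕ → ZMod p}
    (hφ : ∀ x y, pre k x = pre k y → φ x = φ y) (h : ra g (φ, 0) ≠ (φ, 0)) :
    ∃ S : Subgroup (H p), S.FiniteIndex ∧ g ∉ S := by
  let _ : MulAction (H p) ((ℕ → ZMod p) × ZMod p) :=
    { smul := fun a s => ra a⁻¹ s
      one_smul := fun s => by
        show ra 1⁻¹ s = s
        rw [inv_one, ra_one]
      mul_smul := fun a b s => by
        show ra (a * b)⁻¹ s = ra a⁻¹ (ra b⁻¹ s)
        rw [mul_inv_rev, ra_mul] }
  refine ⟨MulAction.stabilizer (H p) (φ, (0 : ZMod p)), ⟨?_⟩, fun hg => h ?_⟩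
  · rw [MulAction.index_stabilizer]
    refine Set.ncard_ne_zero_of_mem (MulAction.mem_orbit_self _) ?_
    refine ((meas_fin (p := p) k).prod Set.finite_univ).subset ?_
    rintro s ⟨a, rfl⟩
    exact ⟨fun x y hxy => hφ _ _ (pre_ev k _ hxy), trivial⟩
  · have h1 : ra g⁻¹⁻¹ (φ, 0) = (φ, 0) := inv_mem hg
    rwa [inv_inv] at h1

theorem resFin [Fact (1 < p)] : Group.ResiduallyFinite (H p) := by
  classical
  have : NeZero p := ⟨by have := Fact.out (p := 1 < p); omega⟩
  rw [Group.residuallyFinite_iff_exists_finiteIndex]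
  intro g hg
  have hm : ∀ k x a b, pre k a = pre k b →
      (if pre k a = pre k x then (1 : ZMod p) else 0) = if pre k b = pre k x then 1 else 0 :=
    fun k x a b h => by rw [h]
  by_cases h1 : ∀ x, ev (W g) x = x
  · obtain ⟨x, hx⟩ : ∃ x, cf g x ≠ 0 := by
      by_contra h0
      push Not at h0
      refine hg (Subtype.ext (Equiv.ext fun w => ?_))
      obtain ⟨y, z⟩ := w
      rw [apply_eq, h1, h0, zero_add]
      rfl
    obtain ⟨B, hB⟩ := (cf_fin g).bddAbove
    refine exists_sub (hm (B + x) x) fun e => hx ?_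
    have h2 := congrArg Prod.snd e
    simp only [ra, h1, zero_add] at h2
    rwa [finsum_eq_single _ x, if_pos rfl, one_mul] at h2
    intro y hy
    by_cases h3 : cf g y = 0
    · rw [h3, mul_zero]
    · rw [if_neg fun h4 => hy (pre_sep _ _ _ (by have := hB h3; omega) h4), zero_mul]
  · push Not at h1
    obtain ⟨x, hx⟩ := h1
    refine exists_sub (hm (ev (W g) x + x) x) fun e => ?_
    have h2 := congrFun (congrArg Prod.fst e) x
    simp only [ra, if_true] at h2
    rw [if_neg fun h4 => hx (pre_sep _ _ _ le_rfl h4)] at h2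
    exact zero_ne_one h2

end Pool.Agent.FS.ResFinGA
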