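import Pool.Agent.FS.ResFinGA.Res

/-! The group is periodic. -/

set_option autoImplicit false

namespace Pool.Agent.FS.ResFinGA

open Pool.Agent.Lib.MP_d24f8b_al

/-- `F` is given by a word of norm at most `N` -/
def Rep (F : ℕ → ℕ) (N : ℕ) : Prop :=
  ∃ (w : List V) (y : V), nrm w + y.wt ≤ N ∧ ∀ n, F n = ev w (act y n)

lemma nrm_cons (x : V) (r : List V) : nrm (x :: r) = x.wt + 3 + nrm r := rfl

lemma ev_cons (x : V) (r : List V) (n : ℕ) : ev (x :: r) n = act x (A (ev r n)) := rfl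

lemma Rep.mono {F : ℕ → ℕ} {N M : ℕ} (h : Rep F N) (hM : N ≤ M) : Rep F M := by
  obtain ⟨w, y, h1, h2⟩ := h
  exact ⟨w, y, h1.trans hM, h2⟩

lemma Rep.act {F : ℕ → ℕ} {N : ℕ} (h : Rep F N) (v : V) :
    Rep (fun n => act v (F n)) (N + v.wt) := by
  obtain ⟨w, y, h1, h2⟩ := h
  cases w with
  | nil =>
    refine ⟨[], v.mul y, ?_, fun n => by beta_reduce; rw [h2, act_mul]; rfl⟩
    have := V.wt_mul v y
    omega
  | cons x r =>
    refine ⟨v.mul x :: r, y, ?_, fun n => by beta_reduce; rw [h2, ev_cons, ev_cons, act_mul]⟩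
    have := V.wt_mul v x
    rw [nrm_cons] at h1 ⊢
    omega

lemma Rep.A {F : ℕ → ℕ} {N : ℕ} (h : Rep F N) : Rep (fun n => A (F n)) (N + 3) := by
  obtain ⟨w, y, h1, h2⟩ := h
  refine ⟨V.e :: w, y, ?_, fun n => by beta_reduce; rw [h2, ev_cons, act_e]⟩
  have : V.e.wt = 0 := rfl
  rw [nrm_cons]
  omega

lemma Rep.comp {F G : ℕ → ℕ} {N M : ℕ} (h : Rep F N) (h' : Rep G M) :
    Rep (fun n => F (G n)) (N + M) := by
  obtain ⟨w, y, h1, h2⟩ := h
  have key : ∀ w : List V, Rep (fun n => ev w (Pool.Agent.Lib.MP_d24f8b_al.act y (G n)))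
      (nrm w + y.wt + M) := fun w => by
    induction w with
    | nil => exact (h'.act y).mono (by omega)
    | cons x r ih => exact (ih.A.act x).mono (by rw [nrm_cons]; omega)
  simp only [h2]
  exact (key w).mono (by omega)

lemma sections (w : List V) : ∃ (F G : ℕ → ℕ) (N M : ℕ), Rep F N ∧ Rep G M ∧
    N + M + w.length ≤ nrm w ∧
    ((∀ m, ev w (i0 m) = i0 (F m) ∧ ev w (i1 m) = i1 (G m)) ∨
      ∀ m, ev w (i0 m) = i1 (F m) ∧ ev w (i1 m) = i0 (G m)) := by
  induction w with
  | nil =>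
    have h : Rep (fun n => n) 0 := ⟨[], V.e, le_rfl, fun n => (act_e n).symm⟩
    exact ⟨_, _, 0, 0, h, h, le_rfl, .inl fun m => ⟨rfl, rfl⟩⟩
  | cons x r ih =>
    obtain ⟨F, G, N, M, hF, hG, hle, h⟩ := ih
    have hw : x.sig.wt + (if x.pi = true then 3 else 0) + 1 ≤ x.wt + 3 := by cases x <;> decide
    have hA : ∀ {F : ℕ → ℕ} {N : ℕ}, Rep F N →
        Rep (fun m => if x.pi = true then A (F m) else F m) (N + if x.pi = true then 3 else 0) := by
      intro F N hF
      split_ifs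
      · exact hF.A
      · exact hF
    rcases h with h | h
    · refine ⟨_, _, _, _, hF.act x.sig, hA hG, by rw [nrm_cons, List.length_cons]; omega,
        .inr fun m => ⟨?_, ?_⟩⟩
      · rw [ev_cons, (h m).1, A_i0, act_i1]
      · rw [ev_cons, (h m).2, A_i1, act_i0]
    · refine ⟨_, _, _, _, hA hF, hG.act x.sig, by rw [nrm_cons, List.length_cons]; omega,
        .inl fun m => ⟨?_, ?_⟩⟩
      · rw [ev_cons, (h m).1, A_i1, act_i0]
      · rw [ev_cons, (h m).2, A_i0, act_i1]

lemma iter_mono {F : ℕ → ℕ} {j k : ℕ} (h : F^[2 ^ j] = id) (hk : j ≤ k) : F^[2 ^ k] = id := by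
  obtain ⟨i, rfl⟩ := Nat.exists_eq_add_of_le hk
  rw [pow_add, Function.iterate_mul, h, Function.iterate_id]

lemma tor_of_sec {T F G : ℕ → ℕ} {j k : ℕ} (h : ∀ m, T (i0 m) = i0 (F m) ∧ T (i1 m) = i1 (G m))
    (hF : F^[2 ^ j] = id) (hG : G^[2 ^ k] = id) : T^[2 ^ (j + k)] = id := by
  funext n
  obtain ⟨m, rfl | rfl⟩ := i_cases n
  · rw [← (Function.Semiconj.iterate_right (f := i0) (fun m => ((h m).1).symm) _) m,
      iter_mono hF (Nat.le_add_right _ _)]
    rfl
  · rw [← (Function.Semiconj.iterate_right (f := i1) (fun m => ((h m).2).symm) _) m,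
      iter_mono hG (Nat.le_add_left _ _)]
    rfl

theorem rep_tor (N : ℕ) : ∀ F, Rep F N → ∃ j, F^[2 ^ j] = id := by
  induction N using Nat.strong_induction_on with
  | _ N ih =>
    rintro T ⟨w, y, h1, h2⟩
    cases w with
    | nil => exact ⟨1, funext fun n => by
        show T (T n) = n
        rw [h2, h2]
        exact act_act y n⟩
    | cons x r =>
      obtain ⟨j, hj⟩ : ∃ j, (ev (y.mul x :: r))^[2 ^ j] = id := by
        obtain ⟨F, G, a, b, hF, hG, hle, h⟩ := sections (y.mul x :: r)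
        have hlt : a + b < N := by
          have := V.wt_mul y x
          rw [nrm_cons] at h1
          rw [nrm_cons, List.length_cons] at hle
          omega
        rcases h with h | h
        · obtain ⟨j, hj⟩ := ih a (by omega) F hF
          obtain ⟨k, hk⟩ := ih b (by omega) G hG
          exact ⟨_, tor_of_sec h hj hk⟩
        · obtain ⟨j, hj⟩ := ih _ (by omega) _ (hG.comp hF)
          obtain ⟨k, hk⟩ := ih _ hlt _ (hF.comp hG)
          refine ⟨j + k + 1, ?_⟩
          rw [pow_succ', Function.iterate_mul]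
          refine tor_of_sec (fun m => ⟨?_, ?_⟩) hj hk
          · show ev _ (ev _ (i0 m)) = _
            rw [(h m).1, (h _).2]
          · show ev _ (ev _ (i1 m)) = _
            rw [(h m).2, (h _).1]
      refine ⟨j, funext fun n => ?_⟩
      have hs : Function.Semiconj (act y) T (ev (y.mul x :: r)) := fun n => by
        rw [h2, ev_cons, ev_cons, act_mul]
      have h3 := hs.iterate_right (2 ^ j) n
      rw [hj] at h3
      rw [← act_act y (T^[2 ^ j] n), h3]
      exact act_act y n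

variable {p : ℕ}

lemma ev_pow (g : H p) (k y : ℕ) : ev (W (g ^ k)) y = (ev (W g))^[k] y := by
  induction k with
  | zero => rw [pow_zero, ev_one]; rfl
  | succ k ih => rw [pow_succ', ev_mul, ih, Function.iterate_succ_apply']

theorem periodic (g : H p) : ∃ j : ℕ, g ^ (2 ^ j * p) = 1 := by
  obtain ⟨j, hj⟩ := rep_tor _ (ev (W g)) ⟨W g, V.e, le_rfl, fun n => by rw [act_e]⟩
  refine ⟨j, ?_⟩
  have h1 : ∀ y, ev (W (g ^ 2 ^ j)) y = y := fun y => by rw [ev_pow, hj]; rfl
  rw [pow_mul]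
  generalize g ^ 2 ^ j = h at h1
  have h2 : ∀ (k y : ℕ) (z : ZMod p), (h ^ k).1 (y, z) = (y, k * cf h y + z) := fun k y z => by
    induction k with
    | zero => simp
    | succ k ih =>
      rw [pow_succ', Subgroup.coe_mul, Equiv.Perm.mul_apply, ih, apply_eq, h1]
      push_cast
      rw [add_mul, one_mul, add_left_comm, add_assoc]
  refine Subtype.ext (Equiv.ext fun w => ?_)
  obtain ⟨y, z⟩ := w
  rw [h2, ZMod.natCast_self, zero_mul, zero_add]
  rfl

end Pool.Agent.FS.ResFinGA
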