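import Pool.Agent.FS.ResFinGA.Alg

/-! A locally nilpotent left ideal lies in a locally nilpotent two-sided ideal. -/

set_option autoImplicit false

namespace Pool.Agent.FS.ResFinGA

theorem two_sided (K : Type*) [Field K] {S : Type*} [Ring S] [Algebra K S] (L : Ideal S)
    (hL : ∀ s : Set S, s.Finite → s ⊆ L →
      ∃ n : ℕ, ∀ l : List S, l.length = n → (∀ x ∈ l, x ∈ s) → l.prod = 0) :
    ∃ I : TwoSidedIdeal S, (∀ x ∈ L, x ∈ I) ∧ ∀ s : Set S, s.Finite → s ⊆ I →
      ∃ n : ℕ, ∀ l : List S, l.length = n → (∀ x ∈ l, x ∈ s) → l.prod = 0 := by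
  let t : S × S → S := fun a => a.1 * a.2
  let M : Submodule K S := Submodule.span K (t '' {a | a.1 ∈ L})
  have hl : ∀ {x y : S}, y ∈ M → x * y ∈ M := fun {x y} hy => by
    induction hy using Submodule.span_induction with
    | mem z hz =>
      obtain ⟨a, ha, rfl⟩ := hz
      exact Submodule.subset_span ⟨(x * a.1, a.2), L.mul_mem_left x ha, mul_assoc _ _ _⟩
    | zero => simp
    | add a b _ _ ha hb => rw [mul_add]; exact add_mem ha hb
    | smul c a _ ha => rw [mul_smul_comm]; exact M.smul_mem c ha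
  have hr : ∀ {x y : S}, x ∈ M → x * y ∈ M := fun {x y} hx => by
    induction hx using Submodule.span_induction with
    | mem z hz =>
      obtain ⟨a, ha, rfl⟩ := hz
      exact Submodule.subset_span ⟨(a.1, a.2 * y), ha, (mul_assoc _ _ _).symm⟩
    | zero => simp
    | add a b _ _ ha hb => rw [add_mul]; exact add_mem ha hb
    | smul c a _ ha => rw [smul_mul_assoc]; exact M.smul_mem c ha
  refine ⟨TwoSidedIdeal.mk' M M.zero_mem M.add_mem M.neg_mem hl hr, fun x hx => ?_,
    fun s hs hsI => ?_⟩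
  · rw [TwoSidedIdeal.mem_mk']
    exact Submodule.subset_span ⟨(x, 1), hx, mul_one x⟩
  have hfin : ∀ x ∈ M, ∃ U : Set (S × S), U.Finite ∧ (∀ a ∈ U, a.1 ∈ L) ∧
      x ∈ Submodule.span K (t '' U) := fun x hx => by
    induction hx using Submodule.span_induction with
    | mem z hz =>
      obtain ⟨a, ha, rfl⟩ := hz
      exact ⟨{a}, Set.finite_singleton a, by rintro b rfl; exact ha,
        Submodule.subset_span ⟨a, rfl, rfl⟩⟩
    | zero => exact ⟨∅, Set.finite_empty, by simp, zero_mem _⟩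
    | add a b _ _ ha hb =>
      obtain ⟨U, h1, h2, h3⟩ := ha
      obtain ⟨U', h1', h2', h3'⟩ := hb
      exact ⟨U ∪ U', h1.union h1', fun a ha => ha.elim (h2 a) (h2' a),
        add_mem (Submodule.span_mono (Set.image_mono Set.subset_union_left) h3)
          (Submodule.span_mono (Set.image_mono Set.subset_union_right) h3')⟩
    | smul c a _ ha =>
      obtain ⟨U, h1, h2, h3⟩ := ha
      exact ⟨U, h1, h2, Submodule.smul_mem _ c h3⟩
  choose f hf using fun x : s => hfin x.1 (by
    have := hsI x.2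
    rwa [SetLike.mem_coe, TwoSidedIdeal.mem_mk'] at this)
  have := hs.to_subtype
  have hU : (⋃ x, f x).Finite := Set.finite_iUnion fun x => (hf x).1
  have hUL : ∀ a ∈ ⋃ x, f x, a.1 ∈ L := fun a ha => by
    obtain ⟨x, hx⟩ := Set.mem_iUnion.1 ha
    exact (hf x).2.1 a hx
  have hsp : ∀ z ∈ s, z ∈ Submodule.span K (t '' ⋃ x, f x) := fun z hz =>
    Submodule.span_mono (Set.image_mono (Set.subset_iUnion f ⟨z, hz⟩)) (hf ⟨z, hz⟩).2.2
  generalize ⋃ x, f x = U at hU hUL hsp
  obtain ⟨n, hn⟩ := hL (Set.image2 (· * ·) (insert 1 (Prod.snd '' U)) (Prod.fst '' U))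
    (((hU.image _).insert 1).image2 _ (hU.image _)) (by
      rintro _ ⟨b, -, _, ⟨a, ha, rfl⟩, rfl⟩
      exact L.mul_mem_left b (hUL a ha))
  have key : ∀ l : List (S × S), (∀ a ∈ l, a ∈ U) → ∀ c ∈ insert 1 (Prod.snd '' U),
      ∃ (l' : List S) (d : S), l'.length = l.length ∧
        (∀ x ∈ l', x ∈ Set.image2 (· * ·) (insert 1 (Prod.snd '' U)) (Prod.fst '' U)) ∧
        c * (l.map t).prod = l'.prod * d := fun l => by
    induction l with
    | nil => exact fun _ c _ => ⟨[], c, rfl, by simp, by simp⟩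
    | cons a r ih =>
      intro h c hc
      have ha := h a List.mem_cons_self
      obtain ⟨l', d, h1, h2, h3⟩ := ih (fun b hb => h b (List.mem_cons_of_mem _ hb)) a.2
        (.inr ⟨a, ha, rfl⟩)
      refine ⟨c * a.1 :: l', d, by simp [h1], fun x hx => ?_, ?_⟩
      · rcases List.mem_cons.1 hx with rfl | hx
        · exact ⟨c, hc, a.1, ⟨a, ha, rfl⟩, rfl⟩
        · exact h2 x hx
      · rw [List.map_cons, List.prod_cons, List.prod_cons, mul_assoc (c * a.1), ← h3]
        simp only [t, mul_assoc]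
  refine ⟨n, fun l hl' hx => ?_⟩
  have h2 := prod_zero_of_span t U l (fun z hz => hsp z (hx z hz)) 1 fun l' h1 h3 => by
    obtain ⟨l'', d, h4, h5, h6⟩ := key l' h3 1 (.inl rfl)
    rw [h6, hn l'' (h4.trans (h1.trans hl')) h5, zero_mul]
  rwa [one_mul] at h2

end Pool.Agent.FS.ResFinGA
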